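import Pool.Agent.Helper88.D4.Stmts

/-!
# An invariant function has a power which is a quotient of coprime functions (project D4)
-/

set_option autoImplicit false

namespace Pool.Agent.Helper51.D4

open Module Filter Topology Pool.Agent.Helper37.SD Pool.Agent.Helper20.TS Pool.Agent.Helper88.D4

variable {K : Type} [Field K] [Algebra ℂ K] {r : ℕ} {H : Fin r → Derivation ℂ K K}

/-! ### Valuations -/

theorem val_inv (u : RVal K) {x : K} (hx : x ≠ 0) : u.val x⁻¹ = - u.val x := by
  have h := u.map_mul x x⁻¹ hx (inv_ne_zero hx)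
  have h1 : u.val 1 = 0 := by
    have := u.map_const 1 one_ne_zero
    rwa [map_one] at this
  rw [mul_inv_cancel₀ hx, h1] at h
  linarith

theorem val_pow (u : RVal K) {x : K} (hx : x ≠ 0) (n : ℕ) : u.val (x ^ n) = n * u.val x := by
  have h1 : u.val 1 = 0 := by
    have := u.map_const 1 one_ne_zero
    rwa [map_one] at this
  induction n with
  | zero => simp [h1]
  | succ n ih =>
    rw [pow_succ, u.map_mul _ _ (pow_ne_zero n hx) hx, ih]
    push_cast
    ring

theorem val_div (u : RVal K) {x y : K} (hx : x ≠ 0) (hy : y ≠ 0) :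
    u.val (x / y) = u.val x - u.val y := by
  rw [div_eq_mul_inv, u.map_mul _ _ hx (inv_ne_zero hy), val_inv u hy]
  ring

/-! ### Weights -/

theorem isW_mul {m n : Fin r → ℤ} {x y : K} (hx : IsW H m x) (hy : IsW H n y) :
    IsW H (m + n) (x * y) := fun i => by
  rw [Derivation.leibniz, hx i, hy i]
  simp only [smul_eq_mul, Algebra.smul_def, Pi.add_apply, Int.cast_add, map_add]
  ring

theorem isW_one : IsW H 0 (1 : K) := fun i => by
  simp

theorem isW_pow {m : Fin r → ℤ} {x : K} (hx : IsW H m x) (n : ℕ) : IsW H (n • m) (x ^ n) := by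
  induction n with
  | zero => simpa using isW_one
  | succ n ih =>
    rw [pow_succ, succ_nsmul]
    exact isW_mul ih hx

theorem isW_div {m n : Fin r → ℤ} {x y : K} (hx : IsW H m x) (hy : IsW H n y) (h0 : y ≠ 0) :
    IsW H (m - n) (x / y) := fun i => by
  rw [der_div _ _ _ h0, hx i, hy i]
  simp only [Algebra.smul_def, Pi.sub_apply, Int.cast_sub, map_sub]
  field_simp

/-- weight vectors of different weights are independent -/
theorem isW_indep (S : Finset (Fin r → ℤ)) : ∀ z : (Fin r → ℤ) → K,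
    (∀ m ∈ S, IsW H m (z m)) → ∑ m ∈ S, z m = 0 → ∀ m ∈ S, z m = 0 := by
  classical
  induction S using Finset.induction_on with
  | empty => simp
  | insert m0 S hm0 ih =>
    intro z hz hs
    rw [Finset.sum_insert hm0] at hs
    have key : ∀ m ∈ S, z m = 0 := by
      intro m hm
      have hne : m ≠ m0 := fun e => hm0 (e ▸ hm)
      obtain ⟨i, hi⟩ := Function.ne_iff.mp hne
      have h1 : ∑ m ∈ S, (((m i : ℤ) - m0 i : ℤ) : ℂ) • z m = 0 := by
        have e1 : H i (z m0 + ∑ m ∈ S, z m) = 0 := by rw [hs, map_zero]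
        rw [map_add, map_sum, hz m0 (Finset.mem_insert_self _ _) i,
          Finset.sum_congr rfl fun m hm => hz m (Finset.mem_insert_of_mem hm) i] at e1
        have e2 : ((m0 i : ℤ) : ℂ) • (z m0 + ∑ m ∈ S, z m) = 0 := by rw [hs, smul_zero]
        rw [smul_add, Finset.smul_sum] at e2
        have e3 : ∑ m ∈ S, (((m i : ℤ) - m0 i : ℤ) : ℂ) • z m =
            (((m0 i : ℤ) : ℂ) • z m0 + ∑ m ∈ S, ((m i : ℤ) : ℂ) • z m) -
              (((m0 i : ℤ) : ℂ) • z m0 + ∑ m ∈ S, ((m0 i : ℤ) : ℂ) • z m) := by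
          rw [add_sub_add_left_eq_sub, ← Finset.sum_sub_distrib]
          refine Finset.sum_congr rfl fun m _ => ?_
          rw [← sub_smul]
          push_cast
          rfl
        rw [e3, e1, e2, sub_zero]
      have h2 := ih (fun m => (((m i : ℤ) - m0 i : ℤ) : ℂ) • z m) (fun m hm j => by
        rw [Derivation.map_smul, hz m (Finset.mem_insert_of_mem hm) j, smul_comm]) h1 m hm
      have h3 : (((m i : ℤ) - m0 i : ℤ) : ℂ) ≠ 0 := by
        rw [Int.cast_ne_zero]
        exact sub_ne_zero.mpr hi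
      exact (smul_eq_zero.mp h2).resolve_left h3
    intro m hm
    rcases Finset.mem_insert.mp hm with e | hm
    · subst e
      rwa [Finset.sum_eq_zero key, add_zero] at hs
    · exact key m hm

/-- decomposition into weight vectors -/
theorem exists_wdec {R : Subalgebra ℂ K} {x : K}
    (hx : x ∈ Submodule.span ℂ {y | y ∈ R ∧ ∃ m : Fin r → ℤ, IsW H m y}) :
    ∃ f : (Fin r → ℤ) →₀ K, (∀ m, f m ∈ R ∧ IsW H m (f m)) ∧ x = f.sum fun _ y => y := by
  classical
  induction hx using Submodule.span_induction with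
  | mem y hy =>
    obtain ⟨hR, m, hm⟩ := hy
    refine ⟨Finsupp.single m y, fun n => ?_, by simp⟩
    by_cases e : m = n
    · subst e
      rw [Finsupp.single_eq_same]
      exact ⟨hR, hm⟩
    · rw [Finsupp.single_eq_of_ne (Ne.symm e)]
      exact ⟨R.zero_mem, fun i => by rw [map_zero, smul_zero]⟩
  | zero => exact ⟨0, fun n => ⟨R.zero_mem, fun i => by simp⟩, by simp⟩
  | add a b _ _ ha hb =>
    obtain ⟨f, hf, e⟩ := ha
    obtain ⟨g, hg, e'⟩ := hb
    refine ⟨f + g, fun n => ⟨R.add_mem (hf n).1 (hg n).1, fun i => ?_⟩, ?_⟩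
    · rw [Finsupp.add_apply, map_add, (hf n).2 i, (hg n).2 i, smul_add]
    · rw [Finsupp.sum_add_index' (fun _ => rfl) (fun _ _ _ => rfl), ← e, ← e']
  | smul a x _ hx =>
    obtain ⟨f, hf, e⟩ := hx
    refine ⟨a • f, fun n => ⟨R.smul_mem (hf n).1 a, fun i => ?_⟩, ?_⟩
    · rw [Finsupp.smul_apply, Derivation.map_smul, (hf n).2 i, smul_comm]
    · rw [Finsupp.sum_smul_index' (fun _ => rfl), ← Finsupp.smul_sum, ← e]

/-- an invariant function is a quotient of weight vectors of `R` -/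
theorem exists_hom_quot {R : Subalgebra ℂ K} (hR : IsFrac R)
    (hT : ∀ x ∈ R, x ∈ Submodule.span ℂ {y | y ∈ R ∧ ∃ m : Fin r → ℤ, IsW H m y})
    {h : K} (hh : ∀ i, H i h = 0) (h0 : h ≠ 0) :
    ∃ (f g : K) (m : Fin r → ℤ), f ∈ R ∧ g ∈ R ∧ f ≠ 0 ∧ g ≠ 0 ∧ IsW H m f ∧ IsW H m g ∧
      h = f / g := by
  classical
  obtain ⟨a, ha, b, hb, hb0, e⟩ := hR h
  obtain ⟨fa, hfa, ea⟩ := exists_wdec (H := H) (hT a ha)
  obtain ⟨fb, hfb, eb⟩ := exists_wdec (H := H) (hT b hb)
  have hne : ∃ m, fb m ≠ 0 := by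
    by_contra hc
    push Not at hc
    apply hb0
    rw [eb, Finsupp.sum]
    exact Finset.sum_eq_zero fun m _ => hc m
  obtain ⟨m, hm⟩ := hne
  have hhW : ∀ n, IsW H n (h * fb n) := fun n i => by
    rw [Derivation.leibniz, hh i, (hfb n).2 i, smul_zero, add_zero, smul_eq_mul]
    simp only [Algebra.smul_def]
    ring
  have key : h * fb m = fa m := by
    have hsum : ∑ n ∈ fa.support ∪ fb.support, (h * fb n - fa n) = 0 := by
      rw [Finset.sum_sub_distrib, ← Finset.mul_sum]
      have e1 : ∑ n ∈ fa.support ∪ fb.support, fb n = b := by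
        rw [eb, Finsupp.sum]
        refine (Finset.sum_subset Finset.subset_union_right fun n _ hn => ?_).symm
        exact Finsupp.notMem_support_iff.mp hn
      have e2 : ∑ n ∈ fa.support ∪ fb.support, fa n = a := by
        rw [ea, Finsupp.sum]
        refine (Finset.sum_subset Finset.subset_union_left fun n _ hn => ?_).symm
        exact Finsupp.notMem_support_iff.mp hn
      rw [e1, e2, e, div_mul_cancel₀ _ hb0, sub_self]
    have h3 := isW_indep (H := H) _ (fun n => h * fb n - fa n) (fun n _ i => by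
      rw [map_sub, hhW n i, (hfa n).2 i, smul_sub]) hsum m
      (Finset.mem_union_right _ (Finsupp.mem_support_iff.mpr hm))
    exact sub_eq_zero.mp h3
  refine ⟨fa m, fb m, m, (hfa m).1, (hfb m).1, ?_, hm, (hfa m).2, (hfb m).2, ?_⟩
  · rw [← key]
    exact mul_ne_zero h0 hm
  · rw [← key, mul_div_assoc, div_self hm, mul_one]

/-! ### Centres of prime divisors -/

/-- the centre of a prime divisor -/
def ctr (R : Subalgebra ℂ K) (u : RVal K) (hu : PDiv R u) : Ideal R where
  carrier := {x | (x : K) = 0 ∨ 0 < u.val (x : K)}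
  zero_mem' := Or.inl rfl
  add_mem' := by
    intro x y hx hy
    change ((x : K) + y = 0) ∨ 0 < u.val ((x : K) + y)
    by_cases h : (x : K) + y = 0
    · exact Or.inl h
    · by_cases hx0 : (x : K) = 0
      · rw [hx0, zero_add] at h ⊢
        exact hy
      · by_cases hy0 : (y : K) = 0
        · rw [hy0, add_zero] at h ⊢
          exact hx
        · exact Or.inr (lt_of_lt_of_le (lt_min (hx.resolve_left hx0) (hy.resolve_left hy0))
            (u.map_add _ _ hx0 hy0 h))
  smul_mem' := by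
    intro s x hx
    change ((s : K) * x = 0) ∨ 0 < u.val ((s : K) * x)
    by_cases h : (s : K) * x = 0
    · exact Or.inl h
    · right
      rw [mul_eq_zero, not_or] at h
      rw [u.map_mul _ _ h.1 h.2]
      have h1 := hu.nonneg s s.2 h.1
      have h2 := hx.resolve_left h.2
      linarith

theorem mem_ctr {R : Subalgebra ℂ K} {u : RVal K} {hu : PDiv R u} {x : R} :
    x ∈ ctr R u hu ↔ ((x : K) = 0 ∨ 0 < u.val (x : K)) := Iff.rfl

theorem ctr_isPrime {R : Subalgebra ℂ K} {u : RVal K} (hu : PDiv R u) : (ctr R u hu).IsPrime := by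
  refine ⟨?_, ?_⟩
  · rw [Ideal.ne_top_iff_one, mem_ctr]
    have h1 : u.val 1 = 0 := by
      have := u.map_const 1 one_ne_zero
      rwa [map_one] at this
    rintro (h | h)
    · exact one_ne_zero h
    · rw [OneMemClass.coe_one, h1] at h
      exact lt_irrefl _ h
  · intro x y hxy
    rw [mem_ctr, MulMemClass.coe_mul] at hxy
    by_cases hx : (x : K) = 0
    · exact Or.inl (Or.inl hx)
    · by_cases hy : (y : K) = 0
      · exact Or.inr (Or.inl hy)
      · have h := hxy.resolve_left (mul_ne_zero hx hy)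
        rw [u.map_mul _ _ hx hy] at h
        rcases (hu.nonneg x x.2 hx).lt_or_eq with h1 | h1
        · exact Or.inl (Or.inr h1)
        · exact Or.inr (Or.inr (by linarith))

/-- the centre of a prime divisor is a minimal prime of any of its elements -/
theorem ctr_mem_minimalPrimes {R : Subalgebra ℂ K} {u : RVal K} (hu : PDiv R u) {f : K}
    (hf : f ∈ R) (hf0 : f ≠ 0) (huf : 0 < u.val f) :
    ctr R u hu ∈ (Ideal.span {(⟨f, hf⟩ : R)}).minimalPrimes := by
  rw [Ideal.minimalPrimes, Set.mem_ofPred_eq]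
  refine ⟨⟨ctr_isPrime hu, ?_⟩, ?_⟩
  · rw [Ideal.span_singleton_le_iff_mem, mem_ctr]
    exact Or.inr huf
  · rintro q ⟨hq, hfq⟩ hqu x hx
    rw [Ideal.span_singleton_le_iff_mem] at hfq
    by_cases hx0 : (x : K) = 0
    · have : x = 0 := Subtype.ext hx0
      rw [this]
      exact q.zero_mem
    have hux := (mem_ctr.mp hx).resolve_left hx0
    obtain ⟨a, ha⟩ := hu.int _ hx0
    obtain ⟨b, hb⟩ := hu.int _ hf0
    rw [ha] at hux
    rw [hb] at huf
    have ha0 : 0 < a := by exact_mod_cast hux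
    have hb0 : 0 < b := by exact_mod_cast huf
    obtain ⟨a', rfl⟩ := Int.eq_ofNat_of_zero_le ha0.le
    obtain ⟨b', rfl⟩ := Int.eq_ofNat_of_zero_le hb0.le
    have ha1 : 0 < a' := by exact_mod_cast ha0
    have hb1 : 0 < b' := by exact_mod_cast hb0
    have hv : u.val ((x : K) ^ b' / f ^ a') = 0 := by
      rw [val_div u (pow_ne_zero _ hx0) (pow_ne_zero _ hf0), val_pow u hx0, val_pow u hf0, ha, hb]
      push_cast
      ring
    obtain ⟨s, hs, hs0, hus, hsx⟩ := hu.loc _ (div_ne_zero (pow_ne_zero b' hx0)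
      (pow_ne_zero a' hf0)) hv.ge
    have hsq : (⟨s, hs⟩ : R) ∉ q := fun hmem => by
      have := mem_ctr.mp (hqu hmem)
      rcases this with h | h
      · exact hs0 h
      · change 0 < u.val s at h
        rw [hus] at h
        exact lt_irrefl _ h
    have hprod : (⟨s, hs⟩ : R) * x ^ b' ∈ q := by
      have e : (⟨s, hs⟩ : R) * x ^ b' =
          (⟨s * ((x : K) ^ b' / f ^ a'), hsx⟩ : R) * (⟨f, hf⟩ : R) ^ a' := by
        apply Subtype.ext
        push_cast
        field_simp
      rw [e]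
      exact q.mul_mem_left _ (q.pow_mem_of_mem hfq _ ha1)
    exact hq.mem_of_pow_mem _ ((hq.mem_or_mem hprod).resolve_left hsq)

/-- the centres of the common prime divisors of `f` and `g` -/
def TC (R : Subalgebra ℂ K) (f g : K) : Set (Ideal R) :=
  {P | ∃ (u : RVal K) (hu : PDiv R u), P = ctr R u hu ∧ 0 < u.val f ∧ 0 < u.val g}

theorem finite_TC {R : Subalgebra ℂ K} (hfg : R.FG) {f g : K} (hf : f ∈ R) (hf0 : f ≠ 0) :
    (TC R f g).Finite := by
  have : IsNoetherianRing R := isNoetherianRing_of_fg hfg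
  refine (Ideal.finite_minimalPrimes_of_isNoetherianRing R
    (Ideal.span {(⟨f, hf⟩ : R)})).subset ?_
  rintro P ⟨u, hu, rfl, h, -⟩
  exact ctr_mem_minimalPrimes hu hf hf0 h

/-! ### Removing the common prime divisors -/

theorem step (hEX : S_EX1) {R : Subalgebra ℂ K} (hR : IsFrac R) (hfg : R.FG) (hN : Normal R)
    (hQ : QFac R)
    (hHF : ∀ u, PDiv R u → ∀ (s : K) (m : Fin r → ℤ), s ∈ R → s ≠ 0 →
      IsW H m s → 0 < u.val s → ∀ F, DivMul R u F → ∃ m', IsW H m' F) (n : ℕ) :
    ∀ (f g : K) (m : Fin r → ℤ), f ∈ R → g ∈ R → f ≠ 0 → g ≠ 0 → IsW H m f → IsW H m g →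
      (TC R f g).ncard ≤ n → ∃ (l : ℕ) (f' g' : K) (m' : Fin r → ℤ), 0 < l ∧ f' ∈ R ∧ g' ∈ R ∧
        f' ≠ 0 ∧ g' ≠ 0 ∧ IsW H m' f' ∧ IsW H m' g' ∧ (f / g) ^ l = f' / g' ∧
          ∀ u, PDiv R u → u.val f' = 0 ∨ u.val g' = 0 := by
  induction n with
  | zero =>
    intro f g m hf hg hf0 hg0 hmf hmg hc
    refine ⟨1, f, g, m, one_pos, hf, hg, hf0, hg0, hmf, hmg, pow_one _, fun u hu => ?_⟩
    have hfin := finite_TC hfg (g := g) hf hf0
    have he : TC R f g = ∅ := (Set.ncard_eq_zero hfin).mp (Nat.le_zero.mp hc)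
    by_contra hcon
    rw [not_or] at hcon
    have : ctr R u hu ∈ TC R f g := ⟨u, hu, rfl,
      lt_of_le_of_ne (hu.nonneg f hf hf0) (Ne.symm hcon.1),
      lt_of_le_of_ne (hu.nonneg g hg hg0) (Ne.symm hcon.2)⟩
    rw [he] at this
    exact this
  | succ n ih =>
    intro f g m hf hg hf0 hg0 hmf hmg hc
    by_cases hex : ∃ u, PDiv R u ∧ 0 < u.val f ∧ 0 < u.val g
    swap
    · refine ⟨1, f, g, m, one_pos, hf, hg, hf0, hg0, hmf, hmg, pow_one _, fun u hu => ?_⟩
      by_contra hcon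
      rw [not_or] at hcon
      exact hex ⟨u, hu, lt_of_le_of_ne (hu.nonneg f hf hf0) (Ne.symm hcon.1),
        lt_of_le_of_ne (hu.nonneg g hg hg0) (Ne.symm hcon.2)⟩
    obtain ⟨u, hu, huf, hug⟩ := hex
    obtain ⟨F, hF, hF0, huF, hFu⟩ := hQ u hu
    obtain ⟨mF, hmF⟩ := hHF u hu f m hf hf0 hmf huf F ⟨hF, hF0, huF, hFu⟩
    obtain ⟨a, ha⟩ := hu.int _ hf0
    obtain ⟨b, hb⟩ := hu.int _ hg0
    obtain ⟨l, hl⟩ := hu.int _ hF0
    have ha0 : 0 < a := by
      rw [ha] at huf
      exact_mod_cast huf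
    have hb0 : 0 < b := by
      rw [hb] at hug
      exact_mod_cast hug
    have hl0 : 0 < l := by
      rw [hl] at huF
      exact_mod_cast huF
    lift a to ℕ using ha0.le
    lift b to ℕ using hb0.le
    lift l to ℕ using hl0.le
    have hl1 : 0 < l := by exact_mod_cast hl0
    set e : ℕ := min a b with he
    have he1 : 0 < e := by
      rw [he]
      exact lt_min (by exact_mod_cast ha0) (by exact_mod_cast hb0)
    have hFe : F ^ e ≠ 0 := pow_ne_zero _ hF0
    -- membership
    have hmem : ∀ (y : K) (k : ℕ), y ∈ R → y ≠ 0 → u.val y = k → e ≤ k → y ^ l / F ^ e ∈ R := by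
      intro y k hy hy0 hk hek
      by_contra hcon
      obtain ⟨w, hw, hw0⟩ := hEX K R hR hfg hN _ hcon
      rw [val_div w (pow_ne_zero _ hy0) hFe, val_pow w hy0, val_pow w hF0] at hw0
      have h1 := hw.nonneg y hy hy0
      rcases (hw.nonneg F hF hF0).lt_or_eq with h2 | h2
      · have e1 := hFu w hw h2 y hy0
        have e2 := hFu w hw h2 F hF0
        rw [e1, e2, hk, hl] at hw0
        have h3 : (e : ℝ) ≤ k := by exact_mod_cast hek
        push_cast at hw0
        have h4 : (0 : ℝ) < l := by exact_mod_cast hl1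
        nlinarith
      · rw [← h2, mul_zero, sub_zero] at hw0
        have : 0 ≤ (l : ℝ) * w.val y := mul_nonneg (Nat.cast_nonneg _) h1
        linarith
    have hf' := hmem f a hf hf0 (by rw [ha]; push_cast; rfl) (min_le_left _ _)
    have hg' := hmem g b hg hg0 (by rw [hb]; push_cast; rfl) (min_le_right _ _)
    have hf'0 : f ^ l / F ^ e ≠ 0 := div_ne_zero (pow_ne_zero _ hf0) hFe
    have hg'0 : g ^ l / F ^ e ≠ 0 := div_ne_zero (pow_ne_zero _ hg0) hFe
    have hW : ∀ y, IsW H m y → IsW H (l • m - e • mF) (y ^ l / F ^ e) := fun y hy =>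
      isW_div (isW_pow hy l) (isW_pow hmF e) hFe
    -- the number of common prime divisors
    have hsub : TC R (f ^ l / F ^ e) (g ^ l / F ^ e) ⊆ TC R f g \ {ctr R u hu} := by
      rintro P ⟨w, hw, rfl, h1, h2⟩
      have h3 := hw.nonneg F hF hF0
      rw [val_div w (pow_ne_zero _ hf0) hFe, val_pow w hf0, val_pow w hF0] at h1
      rw [val_div w (pow_ne_zero _ hg0) hFe, val_pow w hg0, val_pow w hF0] at h2
      have h4 : 0 ≤ (e : ℝ) * w.val F := mul_nonneg (Nat.cast_nonneg _) h3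
      have hl2 : (0 : ℝ) < l := by exact_mod_cast hl1
      have h5 : 0 < w.val f := by
        by_contra hcon
        have : (l : ℝ) * w.val f ≤ 0 := mul_nonpos_of_nonneg_of_nonpos hl2.le (not_lt.mp hcon)
        linarith
      have h6 : 0 < w.val g := by
        by_contra hcon
        have : (l : ℝ) * w.val g ≤ 0 := mul_nonpos_of_nonneg_of_nonpos hl2.le (not_lt.mp hcon)
        linarith
      refine ⟨⟨w, hw, rfl, h5, h6⟩, fun heq => ?_⟩
      rw [Set.mem_singleton_iff] at heq
      have h7 : (⟨F, hF⟩ : R) ∈ ctr R w hw := by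
        rw [heq]
        exact Or.inr huF
      have h8 : 0 < w.val F := (mem_ctr.mp h7).resolve_left hF0
      have e1 := hFu w hw h8 f hf0
      have e2 := hFu w hw h8 F hF0
      have e3 := hFu w hw h8 g hg0
      rw [e1, e2, ha, hl] at h1
      rw [e3, e2, hb, hl] at h2
      push_cast at h1 h2
      rcases min_choice a b with h9 | h9
      · rw [he, h9] at h1
        nlinarith
      · rw [he, h9] at h2
        nlinarith
    have hfin := finite_TC hfg (g := g) hf hf0
    have hcard : (TC R (f ^ l / F ^ e) (g ^ l / F ^ e)).ncard ≤ n := by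
      have h1 := Set.ncard_le_ncard hsub (hfin.subset Set.sdiff_subset)
      have h2 : ctr R u hu ∈ TC R f g := ⟨u, hu, rfl, huf, hug⟩
      have h3 := Set.ncard_sdiff_singleton_lt_of_mem h2 hfin
      omega
    obtain ⟨l', f'', g'', m'', hl', hf'', hg'', hf''0, hg''0, hmf'', hmg'', hq, hcop⟩ :=
      ih _ _ _ hf' hg' hf'0 hg'0 (hW f hmf) (hW g hmg) hcard
    refine ⟨l * l', f'', g'', m'', Nat.mul_pos hl1 hl', hf'', hg'', hf''0, hg''0, hmf'', hmg'',
      ?_, hcop⟩
    rw [← hq, pow_mul]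
    congr 1
    rw [div_pow, div_div_div_cancel_right₀ hFe]

/-! ### The theorem -/

theorem cst_of_pow {x : K} {l : ℕ} (hl : 0 < l) (h : Cst (x ^ l)) : Cst x := by
  obtain ⟨t, ht⟩ := h
  have hint : IsIntegral ℂ x := by
    refine ⟨Polynomial.X ^ l - Polynomial.C t, Polynomial.monic_X_pow_sub_C t hl.ne', ?_⟩
    simp [ht]
  have h1 := minpoly.mem_range_of_degree_eq_one ℂ x
    (IsAlgClosed.degree_eq_one_of_irreducible ℂ (minpoly.irreducible hint))
  obtain ⟨z, hz⟩ := h1
  exact ⟨z, hz.symm⟩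

theorem s_Q (hEX : S_EX1) (hHF : S_HF) : S_Q := by
  intro K _ _ R ξ J a r H c hC hQ hT h hh hcst
  have h0 : h ≠ 0 := fun e => hcst ⟨0, by rw [e, map_zero]⟩
  obtain ⟨f, g, m, hf, hg, hf0, hg0, hmf, hmg, e⟩ :=
    exists_hom_quot hC.frac hT.span hh h0
  obtain ⟨l, f', g', m', hl, hf', hg', hf'0, hg'0, hmf', hmg', e', hcop⟩ :=
    step hEX hC.frac hC.fg hC.normal hQ
      (hHF K R ξ r H c hC.toIsCone hC.normal hT) _ f g m hf hg hf0 hg0 hmf hmg le_rfl
  rw [← e] at e'
  refine ⟨l, f', g', m', hl, hf', hg', hf'0, hg'0, hmf', hmg', e', ?_, hcop⟩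
  have hξ : ∀ y, IsW H m' y → ξ y = ((∑ i, c i * m' i : ℝ) : ℂ) • y := by
    intro y hy
    rw [hT.xi, der_sum_apply]
    simp only [Derivation.smul_apply, hy _, smul_smul]
    rw [← Finset.sum_smul]
    congr 1
    push_cast
    rfl
  have hge : ∀ y ∈ R, y ≠ 0 → IsW H m' y → 0 ≤ ∑ i, c i * m' i := fun y hy hy0 hyW =>
    prop_of_mem_hsp hy0 (hξ y hyW) (hC.span y hy)
  rcases (hge f' hf' hf'0 hmf').lt_or_eq with hlt | heq
  · exact hlt
  exfalso
  have hc1 := hC.const f' hf' (by rw [hξ f' hmf', ← heq]; simp)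
  have hc2 := hC.const g' hg' (by rw [hξ g' hmg', ← heq]; simp)
  obtain ⟨z, hz⟩ := hc1
  obtain ⟨w, hw⟩ := hc2
  refine hcst (cst_of_pow hl ⟨z / w, ?_⟩)
  rw [e', hz, hw, map_div₀]

end Pool.Agent.Helper51.D4
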