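import Pool.Agent.Helper20.D4.RDefs
import Pool.Agent.Helper15.Der

/-!
# The field of rational functions in `p` variables over `K` (project D4, piece `S_EXT`)
-/

set_option autoImplicit false

namespace Pool.Agent.Helper51.D4

open Pool.Agent.Helper37.SD Pool.Agent.Helper20.D4 Pool.Agent.Helper15.Der

variable {K E : Type} [Field K] [Algebra ℂ K] [Field E] [Algebra K E]

/-- the ring homomorphism given by a derivation -/
noncomputable def phi0 (D : Derivation ℂ K K) : K →+* DN E where
  toFun x := DN.mk (algebraMap K E x) (algebraMap K E (D x))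
  map_one' := by
    apply DN.ext'
    · rw [DN.fst_mk, map_one, map_one]
    · rw [DN.snd_mk, Derivation.map_one_eq_zero, map_zero]
      rfl
  map_mul' x y := by
    apply DN.ext'
    · rw [map_mul DN.fst, DN.fst_mk, DN.fst_mk, DN.fst_mk, map_mul]
    · rw [DN.snd_mul, DN.snd_mk, DN.snd_mk, DN.snd_mk, DN.fst_mk, DN.fst_mk, Derivation.leibniz,
        map_add, smul_eq_mul, smul_eq_mul, map_mul, map_mul]
  map_zero' := by
    apply DN.ext'
    · rw [DN.fst_mk, map_zero, map_zero]
    · rw [DN.snd_mk, map_zero, map_zero, map_zero]
  map_add' x y := by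
    apply DN.ext'
    · rw [map_add DN.fst, DN.fst_mk, DN.fst_mk, DN.fst_mk, map_add]
    · rw [map_add DN.snd, DN.snd_mk, DN.snd_mk, DN.snd_mk, map_add, map_add]

theorem phi0_apply (D : Derivation ℂ K K) (x : K) :
    phi0 (E := E) D x = DN.mk (algebraMap K E x) (algebraMap K E (D x)) := rfl

theorem s_EXT : S_EXT := by
  intro K _ _ p
  set A := MvPolynomial (Fin p) K with hA
  let E := FractionRing A
  let t : Fin p → E := fun i => algebraMap A E (MvPolynomial.X i)
  have hinj : Function.Injective (algebraMap A E) := IsFractionRing.injective A E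
  have haev : ∀ P : A, MvPolynomial.aeval t P = algebraMap A E P := by
    intro P
    have h : (MvPolynomial.aeval t : A →ₐ[K] E) = IsScalarTower.toAlgHom K A E := by
      apply MvPolynomial.algHom_ext
      intro i
      rw [MvPolynomial.aeval_X]
      rfl
    rw [h]
    rfl
  refine ⟨E, inferInstance, inferInstance, inferInstance, t, ?_, ?_, ?_, ?_, ?_⟩
  · intro z
    exact IsScalarTower.algebraMap_apply ℂ K E z
  · rw [algebraicIndependent_iff_injective_aeval]
    intro P Q h
    rw [haev, haev] at h
    exact hinj h
  · intro x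
    obtain ⟨a, b, hb, e⟩ := IsFractionRing.div_surjective (A := A) x
    refine ⟨a, b, nonZeroDivisors.ne_zero hb, ?_⟩
    rw [haev, haev, ← e, div_mul_cancel₀]
    rw [Ne, IsFractionRing.to_map_eq_zero_iff]
    exact nonZeroDivisors.ne_zero hb
  · intro x hx
    have hxA : IsIntegral A x := by
      obtain ⟨P, hP, hP0⟩ := hx
      -- lift the coefficients
      have hsurj : ∀ s : Algebra.adjoin K (Set.range t), ∃ a : A, algebraMap A E a = s := by
        intro s
        have h : (s : E) ∈ (MvPolynomial.aeval t : A →ₐ[K] E).range := by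
          rw [← Algebra.adjoin_range_eq_range_aeval]
          exact s.2
        obtain ⟨a, ha⟩ := h
        exact ⟨a, by rw [← haev]; exact ha⟩
      let f : A →+* Algebra.adjoin K (Set.range t) :=
        (MvPolynomial.aeval (fun i => (⟨t i, Algebra.subset_adjoin ⟨i, rfl⟩⟩ :
          Algebra.adjoin K (Set.range t))) : A →ₐ[K] Algebra.adjoin K (Set.range t)).toRingHom
      have hf : ∀ a : A, ((f a : Algebra.adjoin K (Set.range t)) : E) = algebraMap A E a := by
        intro a
        rw [← haev]
        have h1 : ((Algebra.adjoin K (Set.range t)).val.comp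
            (MvPolynomial.aeval (fun i => (⟨t i, Algebra.subset_adjoin ⟨i, rfl⟩⟩ :
              Algebra.adjoin K (Set.range t))))) = MvPolynomial.aeval t := by
          apply MvPolynomial.algHom_ext
          intro i
          simp
        exact DFunLike.congr_fun h1 a
      have hfs : Function.Surjective f := by
        intro s
        obtain ⟨a, ha⟩ := hsurj s
        exact ⟨a, Subtype.ext (by rw [hf, ha])⟩
      obtain ⟨Q, hQ, -, hQm⟩ := Polynomial.lifts_and_degree_eq_and_monic
        (f := f) (Polynomial.map_surjective f hfs P) hP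
      refine ⟨Q, hQm, ?_⟩
      have h2 : (algebraMap A E) = (algebraMap (Algebra.adjoin K (Set.range t)) E).comp f := by
        ext a
        · exact (hf _).symm
        · exact (hf _).symm
      rw [h2, ← Polynomial.eval₂_map, hQ]
      exact hP0
    obtain ⟨a, ha⟩ := IsIntegrallyClosed.isIntegral_iff.mp hxA
    rw [Algebra.adjoin_range_eq_range_aeval]
    exact ⟨a, by rw [← ha]; exact haev a⟩
  · intro D n
    let φ : A →+* DN E := MvPolynomial.eval₂Hom (phi0 D) (fun i => DN.mk (t i) (n i • t i))
    have hφ : ∀ a, DN.fst (φ a) = algebraMap A E a := by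
      intro a
      have h : (DN.fst.comp φ) = algebraMap A E := by
        apply MvPolynomial.ringHom_ext
        · intro x
          rw [RingHom.comp_apply, MvPolynomial.eval₂Hom_C, phi0_apply, DN.fst_mk]
          exact IsScalarTower.algebraMap_apply K A E x
        · intro i
          rw [RingHom.comp_apply, MvPolynomial.eval₂Hom_X', DN.fst_mk]
      exact DFunLike.congr_fun h a
    have : Algebra.FormallyEtale A E := Algebra.FormallyEtale.of_isLocalization (nonZeroDivisors A)
    obtain ⟨D1, hD1⟩ := exists_deriv φ hφ
    have hK : ∀ x : K, D1 (algebraMap K E x) = algebraMap K E (D x) := by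
      intro x
      rw [IsScalarTower.algebraMap_apply K A E, hD1]
      change DN.snd (φ (MvPolynomial.C x)) = _
      rw [MvPolynomial.eval₂Hom_C, phi0_apply, DN.snd_mk]
    refine ⟨ofInt D1 fun z => ?_, fun x => hK x, fun i => ?_⟩
    · rw [IsScalarTower.algebraMap_apply ℂ K E, hK, Derivation.map_algebraMap, map_zero]
    · change D1 (algebraMap A E (MvPolynomial.X i)) = _
      rw [hD1, MvPolynomial.eval₂Hom_X', DN.snd_mk]

end Pool.Agent.Helper51.D4
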