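import Pool.Agent.Helper88.D4.Stmts6
import Pool.Agent.Helper51.D4.Quo

/-!
# D4 stage 6: a function whose divisor is a multiple of the polar divisor of a derivation
-/

set_option autoImplicit false

namespace Pool.Agent.Helper51.D4

open Module Filter Topology Pool.Agent.Helper37.SD Pool.Agent.Helper20.TS Pool.Agent.Helper88.D4

variable {K : Type} [Field K] [Algebra ℂ K] {r : ℕ} {H : Fin r → Derivation ℂ K K}

theorem val_zpow' (u : RVal K) {x : K} (hx : x ≠ 0) (n : ℤ) : u.val (x ^ n) = n * u.val x := by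
  obtain ⟨k, rfl | rfl⟩ := n.eq_nat_or_neg
  · rw [zpow_natCast, val_pow u hx]
    push_cast
    rfl
  · rw [zpow_neg, zpow_natCast, val_inv u (pow_ne_zero k hx), val_pow u hx]
    push_cast
    ring

theorem isW_zpow {m : Fin r → ℤ} {x : K} (hx : IsW H m x) (h0 : x ≠ 0) (n : ℤ) :
    ∃ m', IsW H m' (x ^ n) := by
  obtain ⟨k, rfl | rfl⟩ := n.eq_nat_or_neg
  · exact ⟨_, by rw [zpow_natCast]; exact isW_pow hx k⟩
  · refine ⟨0 - k • m, ?_⟩
    rw [zpow_neg, zpow_natCast, inv_eq_one_div]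
    exact isW_div isW_one (isW_pow hx k) (pow_ne_zero k h0)

theorem isW_der {Z : Derivation ℂ K K} {κ : Fin r → ℤ} (hZ : ∀ i, ⁅H i, Z⁆ = (κ i : ℂ) • Z)
    {m : Fin r → ℤ} {y : K} (hy : IsW H m y) : IsW H (m + κ) (Z y) := by
  intro i
  have h1 : H i (Z y) - Z (H i y) = (κ i : ℂ) • Z y := by
    have h2 := congrArg (fun D : Derivation ℂ K K => D y) (hZ i)
    simp only [Derivation.commutator_apply, Derivation.smul_apply] at h2
    exact h2
  rw [hy i, Derivation.map_smul] at h1
  have h2 : H i (Z y) = (κ i : ℂ) • Z y + (m i : ℂ) • Z y := by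
    rw [← h1]
    abel
  rw [h2, ← add_smul, Pi.add_apply]
  push_cast
  rw [add_comm]

/-- a homogeneous element is a quotient of homogeneous elements of `R` -/
theorem exists_hom_quot_w {R : Subalgebra ℂ K} (hR : IsFrac R)
    (hT : ∀ x ∈ R, x ∈ Submodule.span ℂ {y | y ∈ R ∧ ∃ m : Fin r → ℤ, IsW H m y})
    {n : Fin r → ℤ} {y : K} (hy : IsW H n y) (y0 : y ≠ 0) :
    ∃ (f g : K) (m m' : Fin r → ℤ), f ∈ R ∧ g ∈ R ∧ f ≠ 0 ∧ g ≠ 0 ∧ IsW H m f ∧ IsW H m' g ∧
      y = f / g := by
  classical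
  obtain ⟨a, ha, b, hb, hb0, e⟩ := hR y
  obtain ⟨fa, hfa, ea⟩ := exists_wdec (H := H) (hT a ha)
  obtain ⟨fb, hfb, eb⟩ := exists_wdec (H := H) (hT b hb)
  have hne : ∃ m, fb m ≠ 0 := by
    by_contra hc
    push Not at hc
    apply hb0
    rw [eb, Finsupp.sum]
    exact Finset.sum_eq_zero fun m _ => hc m
  obtain ⟨m, hm⟩ := hne
  have key : y * fb m = fa (m + n) := by
    have hsum : ∑ k ∈ (fa.support.image (· - n) ∪ fb.support).image (· + n),
        (y * fb (k - n) - fa k) = 0 := by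
      rw [Finset.sum_sub_distrib]
      have e1 : ∑ k ∈ (fa.support.image (· - n) ∪ fb.support).image (· + n),
          y * fb (k - n) = y * b := by
        rw [Finset.sum_image (fun p _ q _ h => add_right_cancel h)]
        simp only [add_sub_cancel_right]
        rw [← Finset.mul_sum, eb, Finsupp.sum]
        congr 1
        exact (Finset.sum_subset Finset.subset_union_right fun k _ hk =>
          Finsupp.notMem_support_iff.mp hk).symm
      have e2 : ∑ k ∈ (fa.support.image (· - n) ∪ fb.support).image (· + n), fa k = a := by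
        rw [ea, Finsupp.sum]
        refine (Finset.sum_subset ?_ fun k _ hk => Finsupp.notMem_support_iff.mp hk).symm
        intro k hk
        exact Finset.mem_image.2 ⟨k - n, Finset.mem_union_left _
          (Finset.mem_image_of_mem _ hk), sub_add_cancel k n⟩
      rw [e1, e2, e, div_mul_cancel₀ _ hb0, sub_self]
    have h3 := isW_indep (H := H) _ (fun k => y * fb (k - n) - fa k) (fun k _ i => by
      have h1 := isW_mul hy (hfb (k - n)).2 i
      rw [show n + (k - n) = k by abel] at h1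
      rw [map_sub, h1, (hfa k).2 i, smul_sub]) hsum (m + n)
      (Finset.mem_image_of_mem _ (Finset.mem_union_right _ (Finsupp.mem_support_iff.mpr hm)))
    simp only [add_sub_cancel_right] at h3
    exact sub_eq_zero.mp h3
  refine ⟨fa (m + n), fb m, m + n, m, (hfa _).1, (hfb _).1, ?_, hm, (hfa _).2, (hfb _).2, ?_⟩
  · rw [← key]
    exact mul_ne_zero y0 hm
  · rw [← key, mul_div_assoc, div_self hm, mul_one]

/-- a homogeneous common denominator -/
theorem exists_den {R : Subalgebra ℂ K} (hR : IsFrac R) (hfg : R.FG)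
    (hT : ∀ x ∈ R, x ∈ Submodule.span ℂ {y | y ∈ R ∧ ∃ m : Fin r → ℤ, IsW H m y})
    {Z : Derivation ℂ K K} {κ : Fin r → ℤ} (hZ : ∀ i, ⁅H i, Z⁆ = (κ i : ℂ) • Z) :
    ∃ (s : K) (m : Fin r → ℤ), s ∈ R ∧ s ≠ 0 ∧ IsW H m s ∧ ∀ x ∈ R, s * Z x ∈ R := by
  classical
  have h1 : ∀ x ∈ R, ∃ (s : K) (m : Fin r → ℤ), s ∈ R ∧ s ≠ 0 ∧ IsW H m s ∧ s * Z x ∈ R := by
    intro x hx
    have hx' := hT x hx
    induction hx' using Submodule.span_induction with
    | mem y hy =>
      obtain ⟨hyR, m, hm⟩ := hy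
      by_cases h0 : Z y = 0
      · exact ⟨1, 0, R.one_mem, one_ne_zero, isW_one, by rw [h0, mul_zero]; exact R.zero_mem⟩
      · obtain ⟨f, g, mf, mg, hf, hg, -, hg0, -, hmg, e⟩ :=
          exists_hom_quot_w hR hT (isW_der hZ hm) h0
        exact ⟨g, mg, hg, hg0, hmg, by rw [e, mul_div_cancel₀ _ hg0]; exact hf⟩
    | zero => exact ⟨1, 0, R.one_mem, one_ne_zero, isW_one, by
        rw [map_zero, mul_zero]; exact R.zero_mem⟩
    | add a b ha hb iha ihb =>
      have haR : a ∈ R := by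
        refine (Submodule.span_le (p := Subalgebra.toSubmodule R)).2 ?_ ha
        rintro z ⟨hz, -⟩
        exact hz
      have hbR : b ∈ R := by
        refine (Submodule.span_le (p := Subalgebra.toSubmodule R)).2 ?_ hb
        rintro z ⟨hz, -⟩
        exact hz
      obtain ⟨s, m, hs, hs0, hm, hsa⟩ := iha haR
      obtain ⟨s', m', hs', hs'0, hm', hsb⟩ := ihb hbR
      refine ⟨s * s', m + m', R.mul_mem hs hs', mul_ne_zero hs0 hs'0, isW_mul hm hm', ?_⟩
      have e : s * s' * Z (a + b) = s' * (s * Z a) + s * (s' * Z b) := by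
        rw [map_add]
        ring
      rw [e]
      exact R.add_mem (R.mul_mem hs' hsa) (R.mul_mem hs hsb)
    | smul a x hxs ih =>
      have hxR : x ∈ R := by
        refine (Submodule.span_le (p := Subalgebra.toSubmodule R)).2 ?_ hxs
        rintro z ⟨hz, -⟩
        exact hz
      obtain ⟨s, m, hs, hs0, hm, hsa⟩ := ih hxR
      refine ⟨s, m, hs, hs0, hm, ?_⟩
      rw [Derivation.map_smul, mul_smul_comm]
      exact R.smul_mem hsa a
  obtain ⟨S, hS⟩ := hfg
  have h2 : ∀ T : Finset K, T ⊆ S → ∃ (s : K) (m : Fin r → ℤ), s ∈ R ∧ s ≠ 0 ∧ IsW H m s ∧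
      ∀ x ∈ T, s * Z x ∈ R := by
    intro T
    induction T using Finset.induction_on with
    | empty =>
      intro _
      exact ⟨1, 0, R.one_mem, one_ne_zero, isW_one, by simp⟩
    | insert y T _ ih =>
      intro hT'
      obtain ⟨s, m, hs, hs0, hm, hsT⟩ := ih ((Finset.subset_insert _ _).trans hT')
      have hyR : y ∈ R := by
        rw [← hS]
        exact Algebra.subset_adjoin (hT' (Finset.mem_insert_self _ _))
      obtain ⟨s', m', hs', hs'0, hm', hsy⟩ := h1 y hyR
      refine ⟨s * s', m + m', R.mul_mem hs hs', mul_ne_zero hs0 hs'0, isW_mul hm hm', ?_⟩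
      intro x hx
      rcases Finset.mem_insert.1 hx with rfl | hx
      · rw [mul_assoc]
        exact R.mul_mem hs hsy
      · rw [mul_comm s s', mul_assoc]
        exact R.mul_mem hs' (hsT x hx)
  obtain ⟨s, m, hs, hs0, hm, hsS⟩ := h2 S (Finset.Subset.refl _)
  refine ⟨s, m, hs, hs0, hm, ?_⟩
  intro x hx
  rw [← hS] at hx
  induction hx using Algebra.adjoin_induction with
  | mem x hx => exact hsS x hx
  | algebraMap c =>
    rw [Z.map_algebraMap, mul_zero]
    exact R.zero_mem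
  | add x y _ _ hx hy =>
    rw [map_add, mul_add]
    exact R.add_mem hx hy
  | mul x y hx' hy' hx hy =>
    rw [hS] at hx' hy'
    have e : s * Z (x * y) = x * (s * Z y) + y * (s * Z x) := by
      rw [Derivation.leibniz, smul_eq_mul, smul_eq_mul]
      ring
    rw [e]
    exact R.add_mem (R.mul_mem hx' hy) (R.mul_mem hy' hx)

/-- a homogeneous element where `Z` does not vanish -/
theorem exists_hom_ne {R : Subalgebra ℂ K} (hR : IsFrac R)
    (hT : ∀ x ∈ R, x ∈ Submodule.span ℂ {y | y ∈ R ∧ ∃ m : Fin r → ℤ, IsW H m y})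
    {Z : Derivation ℂ K K} (hZ0 : Z ≠ 0) :
    ∃ (g : K) (m : Fin r → ℤ), g ∈ R ∧ IsW H m g ∧ Z g ≠ 0 := by
  by_contra hno
  push Not at hno
  apply hZ0
  have h1 : ∀ x ∈ R, Z x = 0 := by
    intro x hx
    have hx' := hT x hx
    induction hx' using Submodule.span_induction with
    | mem y hy => exact hno y hy.2.choose hy.1 hy.2.choose_spec
    | zero => exact map_zero _
    | add a b ha hb iha ihb =>
      have haR : a ∈ R := by
        refine (Submodule.span_le (p := Subalgebra.toSubmodule R)).2 ?_ ha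
        rintro z ⟨hz, -⟩
        exact hz
      have hbR : b ∈ R := by
        refine (Submodule.span_le (p := Subalgebra.toSubmodule R)).2 ?_ hb
        rintro z ⟨hz, -⟩
        exact hz
      rw [map_add, iha haR, ihb hbR, add_zero]
    | smul a x hxs ih =>
      have hxR : x ∈ R := by
        refine (Submodule.span_le (p := Subalgebra.toSubmodule R)).2 ?_ hxs
        rintro z ⟨hz, -⟩
        exact hz
      rw [Derivation.map_smul, ih hxR, smul_zero]
  ext x
  obtain ⟨a, ha, b, hb, hb0, rfl⟩ := hR x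
  have h2 : Z (b * (a / b)) = b • Z (a / b) + (a / b) • Z b := Derivation.leibniz _ _ _
  rw [mul_div_cancel₀ _ hb0, h1 a ha, h1 b hb, smul_zero, add_zero, smul_eq_mul] at h2
  rcases mul_eq_zero.1 h2.symm with h3 | h3
  · exact absurd h3 hb0
  · rw [h3]
    rfl

/-! ### Poles -/

theorem val_ge_of_ge {u : RVal K} {c : ℝ} {x : K} (h : u.Ge c x) (hx : x ≠ 0) : c ≤ u.val x :=
  h.resolve_left hx

theorem pole_unique {u : RVal K} {Z : Derivation ℂ K K} {t t' : ℤ} (h : Pole u Z t)
    (h' : Pole u Z t') : t = t' := by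
  obtain ⟨h1, F, hF, hF0, hFt⟩ := h
  obtain ⟨h1', F', hF', hF'0, hFt'⟩ := h'
  have e1 := val_ge_of_ge (h1 F' hF') hF'0
  have e2 := val_ge_of_ge (h1' F hF) hF0
  rw [hFt'] at e1
  rw [hFt] at e2
  have : (t : ℝ) = t' := by linarith
  exact_mod_cast this

theorem pole_congr {u u' : RVal K} {Z : Derivation ℂ K K} {t : ℤ}
    (huu : ∀ x, x ≠ 0 → u'.val x = u.val x) (h : Pole u Z t) : Pole u' Z t := by
  have hGe : ∀ c x, u'.Ge c x ↔ u.Ge c x := by
    intro c x
    unfold RVal.Ge
    by_cases hx : x = 0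
    · simp [hx]
    · simp only [hx, false_or, huu x hx]
  obtain ⟨h1, F, hF, hF0, hFt⟩ := h
  refine ⟨fun G hG => (hGe _ _).2 (h1 G ((hGe _ _).1 hG)), F, (hGe _ _).2 hF, hF0, ?_⟩
  rw [huu _ hF0, hFt]

theorem pole_pos {R : Subalgebra ℂ K} {u : RVal K} (hu : PDiv R u) {Z : Derivation ℂ K K} {t : ℤ}
    (h : Pole u Z t) (ht : 0 < t) {s : K} (hs0 : s ≠ 0) (hsZ : ∀ x ∈ R, s * Z x ∈ R) :
    0 < u.val s := by
  obtain ⟨-, F, hF, hF0, hFt⟩ := h
  have hFne : F ≠ 0 := fun e => hF0 (by rw [e, map_zero])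
  obtain ⟨b, hb, hb0, hub, hbF⟩ := hu.loc F hFne (val_ge_of_ge hF hFne)
  have hR0 : ∀ x ∈ R, u.Ge 0 x := fun x hx => by
    by_cases h0 : x = 0
    · exact Or.inl h0
    · exact Or.inr (hu.nonneg x hx h0)
  have e : b * (s * Z F) = s * Z (b * F) - F * (s * Z b) := by
    rw [Derivation.leibniz, smul_eq_mul, smul_eq_mul]
    ring
  have h1 : u.Ge 0 (b * (s * Z F)) := by
    rw [e]
    have h2 := u.ge_mul hF (hR0 _ (hsZ b hb))
    rw [zero_add] at h2
    have h3 := u.ge_add (hR0 _ (hsZ _ hbF)) (u.ge_neg h2)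
    rwa [← sub_eq_add_neg] at h3
  have hne : s * Z F ≠ 0 := mul_ne_zero hs0 hF0
  have h2 := val_ge_of_ge h1 (mul_ne_zero hb0 hne)
  rw [u.map_mul _ _ hb0 hne, u.map_mul _ _ hs0 hF0, hub, hFt] at h2
  have : (0 : ℝ) < t := by exact_mod_cast ht
  linarith

/-- the product over finitely many prime divisors -/
theorem cmp_step {R : Subalgebra ℂ K} (hQ : QFac R) {Z : Derivation ℂ K K}
    (hP : ∀ u, PDiv R u → ∃ t, Pole u Z t) {σ : K} {mσ : Fin r → ℤ} (hσR : σ ∈ R) (hσ0 : σ ≠ 0)
    (hσW : IsW H mσ σ)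
    (hHF : ∀ u, PDiv R u → ∀ (s : K) (m : Fin r → ℤ), s ∈ R → s ≠ 0 →
      IsW H m s → 0 < u.val s → ∀ F, DivMul R u F → ∃ m', IsW H m' F) (T : Finset (Ideal R)) :
    (∀ P ∈ T, ∃ (u : RVal K) (hu : PDiv R u), P = ctr R u hu ∧ 0 < u.val σ) →
      ∃ (x : K) (N : ℕ) (m : Fin r → ℤ), x ≠ 0 ∧ 0 < N ∧ IsW H m x ∧
        ∀ (u : RVal K) (hu : PDiv R u), (ctr R u hu ∈ T → ∀ t, Pole u Z t → u.val x = N * t) ∧
          (ctr R u hu ∉ T → u.val x = 0) := by
  classical
  induction T using Finset.induction_on with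
  | empty =>
    intro _
    refine ⟨1, 1, 0, one_ne_zero, one_pos, isW_one, fun u hu => ⟨fun h => ?_, fun _ => ?_⟩⟩
    · exact absurd h (Finset.notMem_empty _)
    · have := u.map_const 1 one_ne_zero
      rwa [map_one] at this
  | insert P T hPT ih =>
    intro hT
    obtain ⟨x, N, m, hx0, hN, hm, hx⟩ := ih fun P' hP' => hT P' (Finset.mem_insert_of_mem hP')
    obtain ⟨u0, hu0, hP0, hσu⟩ := hT P (Finset.mem_insert_self _ _)
    obtain ⟨F, hF, hF0, huF, hFu⟩ := hQ u0 hu0
    obtain ⟨mF, hmF⟩ := hHF u0 hu0 σ mσ hσR hσ0 hσW hσu F ⟨hF, hF0, huF, hFu⟩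
    obtain ⟨t0, ht0⟩ := hP u0 hu0
    obtain ⟨n, hn⟩ := hu0.int _ hF0
    have hn0 : 0 < n := by
      rw [hn] at huF
      exact_mod_cast huF
    lift n to ℕ using hn0.le
    have hn1 : 0 < n := by exact_mod_cast hn0
    -- if `u F > 0` then `u = u0`
    have hctr : ∀ (u : RVal K) (hu : PDiv R u), 0 < u.val F → ctr R u hu = P := by
      intro u hu huF'
      have huu := hFu u hu huF'
      rw [hP0]
      ext y
      rw [mem_ctr, mem_ctr]
      by_cases hy : (y : K) = 0
      · simp [hy]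
      · rw [huu _ hy]
    have hctr' : ∀ (u : RVal K) (hu : PDiv R u), ctr R u hu = P → 0 < u.val F := by
      intro u hu h
      have h1 : (⟨F, hF⟩ : R) ∈ ctr R u hu := by
        rw [h, hP0]
        exact Or.inr huF
      exact (mem_ctr.mp h1).resolve_left hF0
    obtain ⟨mz, hmz⟩ := isW_zpow hmF hF0 (t0 * N)
    refine ⟨x ^ n * F ^ (t0 * N : ℤ), N * n, n • m + mz, mul_ne_zero (pow_ne_zero _ hx0)
      (zpow_ne_zero _ hF0), Nat.mul_pos hN hn1, isW_mul (isW_pow hm n) hmz, ?_⟩
    intro u hu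
    have hval : u.val (x ^ n * F ^ (t0 * N : ℤ)) = n * u.val x + (t0 * N) * u.val F := by
      rw [u.map_mul _ _ (pow_ne_zero _ hx0) (zpow_ne_zero _ hF0), val_pow u hx0, val_zpow' u hF0]
      push_cast
      ring
    rw [hval]
    by_cases hc : ctr R u hu = P
    · have huF' := hctr' u hu hc
      have huu := hFu u hu huF'
      have hx' : u.val x = 0 := (hx u hu).2 (by rw [hc]; exact hPT)
      refine ⟨fun _ t ht => ?_, fun h => ?_⟩
      · have h1 : Pole u Z t0 := pole_congr huu ht0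
        have h2 := pole_unique ht h1
        rw [hx', huu F hF0, hn, h2]
        push_cast
        ring
      · exact absurd (by rw [hc]; exact Finset.mem_insert_self _ _) h
    · have huF' : u.val F = 0 := by
        rcases (hu.nonneg F hF hF0).lt_or_eq with h | h
        · exact absurd (hctr u hu h) hc
        · exact h.symm
      rw [huF', mul_zero, add_zero]
      refine ⟨fun h t ht => ?_, fun h => ?_⟩
      · have h1 : ctr R u hu ∈ T := (Finset.mem_insert.1 h).resolve_left hc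
        rw [(hx u hu).1 h1 t ht]
        push_cast
        ring
      · have h1 : ctr R u hu ∉ T := fun h' => h (Finset.mem_insert_of_mem h')
        rw [(hx u hu).2 h1, mul_zero]

theorem s_CMP (hPOL : S_POL) (hHF : S_HF) : S_CMP := by
  intro K _ _ R ξ J a H c hC hQ hT Z hZ κ hκ
  classical
  have hκ' : ∀ i, ⁅H i, Z⁆ = (((fun _ => κ : Fin 1 → ℤ) i : ℤ) : ℂ) • Z := by
    intro i
    rw [Subsingleton.elim i 0]
    exact hκ
  obtain ⟨s, ms, hs, hs0, hsW, hsZ⟩ := exists_den hC.frac hC.fg hT.span hκ'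
  obtain ⟨g, mg, hg, hgW, hgZ⟩ := exists_hom_ne hC.frac hT.span hZ
  obtain ⟨α, β, mα, mβ, hα, hβ, hα0, hβ0, hαW, hβW, hαβ⟩ :=
    exists_hom_quot_w hC.frac hT.span (isW_der hκ' hgW) hgZ
  have hσR : s * α ∈ R := R.mul_mem hs hα
  have hσ0 : s * α ≠ 0 := mul_ne_zero hs0 hα0
  have hσW : IsW H (ms + mα) (s * α) := isW_mul hsW hαW
  have hPole : ∀ u, PDiv R u → ∃ t, Pole u Z t := fun u hu => hPOL K R ξ hC.toIsCone u hu Z hZ
  have hfin := finite_TC hC.fg (g := s * α) hσR hσ0
  obtain ⟨x, N, m, hx0, hN, hm, hx⟩ := cmp_step hQ hPole hσR hσ0 hσW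
    (hHF K R ξ 1 H c hC.toIsCone hC.normal hT) hfin.toFinset (by
      intro P hP
      rw [Set.Finite.mem_toFinset] at hP
      obtain ⟨u, hu, h1, h2, -⟩ := hP
      exact ⟨u, hu, h1, h2⟩)
  refine ⟨x, N, c 0 * m 0, hx0, hN, ?_, ?_⟩
  · rw [hT.xi, der_sum_apply]
    simp only [Derivation.smul_apply, hm _, smul_smul]
    rw [Fin.sum_univ_one]
    push_cast
    rfl
  · intro u hu t ht
    by_cases hc : ctr R u hu ∈ hfin.toFinset
    · exact (hx u hu).1 hc t ht
    · rw [(hx u hu).2 hc]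
      have h0 : t = 0 := by
        by_contra hne
        apply hc
        rw [Set.Finite.mem_toFinset]
        have hus := hu.nonneg s hs hs0
        have huα := hu.nonneg α hα hα0
        have hpos : 0 < u.val (s * α) := by
          rw [u.map_mul _ _ hs0 hα0]
          rcases lt_or_gt_of_ne hne with h | h
          · have h1 := ht.1 g (by
              by_cases h0 : g = 0
              · exact Or.inl h0
              · exact Or.inr (hu.nonneg g hg h0))
            have h2 := val_ge_of_ge h1 hgZ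
            rw [hαβ, val_div u hα0 hβ0] at h2
            have h3 := hu.nonneg β hβ hβ0
            have h4 : (t : ℝ) < 0 := by exact_mod_cast h
            linarith
          · have h1 := pole_pos hu ht h hs0 hsZ
            linarith
        exact ⟨u, hu, rfl, hpos, hpos⟩
      rw [h0]
      push_cast
      ring

end Pool.Agent.Helper51.D4
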