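import Pool.Agent.Helper88.D4.Stmts4
import Pool.Agent.Helper79.D4.R1

/-!
# D4: a derivation of the germ induces a derivation of the graded ring
-/

set_option autoImplicit false

namespace Pool.Agent.Helper51.D4

open Module Filter Topology IsLocalRing Pool.Agent.Helper37.SD Pool.Agent.Helper20.TS
  Pool.Agent.Helper11.SY Pool.Agent.Helper20.LT Pool.Agent.Helper88.D4

/-- A linear map with given restrictions to independent subspaces. -/
theorem exists_lin_of {G V : Type} [DecidableEq G] [AddCommGroup V] [Module ℂ V]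
    (S : G → Submodule ℂ V) (hind : iSupIndep S) (T : ∀ g, S g →ₗ[ℂ] V) :
    ∃ L : V →ₗ[ℂ] V, ∀ g, ∀ x : S g, L (x : V) = T g x := by
  classical
  let Φ : (Π₀ g, S g) →ₗ[ℂ] V := DFinsupp.lsum ℕ fun g => (S g).subtype
  have hΦ : Function.Injective Φ := hind.dfinsupp_lsum_injective
  obtain ⟨Ψ, hΨ⟩ := Φ.exists_leftInverse_of_injective (LinearMap.ker_eq_bot.mpr hΦ)
  let L' : (Π₀ g, S g) →ₗ[ℂ] V := DFinsupp.lsum ℕ T
  refine ⟨L' ∘ₗ Ψ, fun g x => ?_⟩
  have h1 : Φ (DFinsupp.single g x) = x := by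
    simp [Φ]
  have h2 : Ψ (x : V) = DFinsupp.single g x := by
    conv_lhs => rw [← h1]
    exact LinearMap.congr_fun hΨ _
  rw [LinearMap.comp_apply, h2]
  simp [L']

section

variable {R : Type} [CommRing R] [Algebra ℂ R] [IsLocalRing R] {K : Type} [Field K] [Algebra ℂ K]
  {w : CVal R} {R₀ : Subalgebra ℂ K} {ξ : Derivation ℂ K K} {sym : ℝ → R → K}

theorem val_const (w : CVal R) (z : ℂ) : ((0 : ℝ) : WithTop ℝ) ≤ w.v (algebraMap ℂ R z) :=
  w.nonneg _

theorem sym_smul (hG : GrL w R₀ ξ sym) (c : ℝ) (z : ℂ) (x : R) (hx : (c : WithTop ℝ) ≤ w.v x) :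
    (c : WithTop ℝ) ≤ w.v (z • x) ∧ sym c (z • x) = z • sym c x := by
  have h1 : z • x = algebraMap ℂ R z * x := Algebra.smul_def z x
  have h2 := hG.mul 0 c (algebraMap ℂ R z) x (val_const w z) hx
  rw [zero_add, hG.const, ← h1, ← Algebra.smul_def] at h2
  refine ⟨?_, h2⟩
  rw [h1, w.v.map_mul]
  have h3 := add_le_add (w.nonneg (algebraMap ℂ R z)) hx
  rwa [zero_add] at h3

theorem sym_sub_eq (hG : GrL w R₀ ξ sym) (c : ℝ) (x y : R) (hx : (c : WithTop ℝ) ≤ w.v x)
    (hy : (c : WithTop ℝ) ≤ w.v y) (h : sym c x = sym c y) : (c : WithTop ℝ) < w.v (x - y) := by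
  have h1 := sym_smul hG c (-1) y hy
  rw [neg_one_smul, neg_one_smul] at h1
  have h2 := hG.add c x (-y) hx h1.1
  rw [h1.2, h, add_neg_cancel, ← sub_eq_add_neg] at h2
  refine (hG.zero_iff c (x - y) ?_).1 h2
  rw [sub_eq_add_neg]
  exact w.v.map_le_add hx h1.1

end

theorem s_IND : S_IND := by
  intro R _ _ _ _ w K _ _ R₀ ξ sym hG hC δ d hδ
  classical
  -- the values
  have hv : ∀ (c : ℝ) x, (c : WithTop ℝ) ≤ w.v x → ((c + d : ℝ) : WithTop ℝ) ≤ w.v (δ x) := by
    intro c x hx
    refine le_trans ?_ (hδ x)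
    rw [WithTop.coe_add]
    exact add_le_add hx le_rfl
  have hv' : ∀ (c : ℝ) x, (c : WithTop ℝ) < w.v x → ((c + d : ℝ) : WithTop ℝ) < w.v (δ x) := by
    intro c x hx
    refine lt_of_lt_of_le ?_ (hδ x)
    rw [WithTop.coe_add]
    exact WithTop.add_lt_add_right (WithTop.coe_ne_top) hx
  -- independence of the representative
  have hwd : ∀ (c : ℝ) x y, (c : WithTop ℝ) ≤ w.v x → (c : WithTop ℝ) ≤ w.v y →
      sym c x = sym c y → sym (c + d) (δ x) = sym (c + d) (δ y) := by
    intro c x y hx hy h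
    have h1 := hv' c _ (sym_sub_eq hG c x y hx hy h)
    have h2 := (hG.zero_iff (c + d) (δ (x - y)) h1.le).2 h1
    have h3 := hG.add (c + d) (δ (x - y)) (δ y) h1.le (hv c y hy)
    rw [h2, zero_add, ← map_add, sub_add_cancel] at h3
    exact h3
  -- representatives
  have hrep : ∀ (c : ℝ) (y : eigR R₀ ξ c), ∃ x, (c : WithTop ℝ) ≤ w.v x ∧ sym c x = (y : K) :=
    fun c y => hG.surj c y y.2.1 y.2.2
  choose ρ hρ hρ' using hrep
  let T : ∀ c : ℝ, eigR R₀ ξ c →ₗ[ℂ] K := fun c =>
    { toFun := fun y => sym (c + d) (δ (ρ c y))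
      map_add' := fun y z => by
        show sym (c + d) (δ (ρ c (y + z))) = _
        have h1 : sym c (ρ c (y + z)) = sym c (ρ c y + ρ c z) := by
          rw [hρ', hG.add c _ _ (hρ c y) (hρ c z), hρ', hρ']
          rfl
        rw [hwd c _ _ (hρ c _) (w.v.map_le_add (hρ c y) (hρ c z)) h1, map_add,
          hG.add (c + d) _ _ (hv c _ (hρ c y)) (hv c _ (hρ c z))]
      map_smul' := fun a y => by
        show sym (c + d) (δ (ρ c (a • y))) = a • sym (c + d) (δ (ρ c y))
        have h2 := sym_smul hG c a (ρ c y) (hρ c y)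
        have h1 : sym c (ρ c (a • y)) = sym c (a • ρ c y) := by
          rw [hρ', h2.2, hρ']
          rfl
        rw [hwd c _ _ (hρ c _) h2.1 h1, Derivation.map_smul,
          (sym_smul hG (c + d) a _ (hv c _ (hρ c y))).2] }
  have hind : iSupIndep (fun c : ℝ => eigR R₀ ξ c) := by
    have h1 : iSupIndep (fun c : ℝ => Module.End.eigenspace (ξ : K →ₗ[ℂ] K) (c : ℂ)) :=
      (Module.End.eigenspaces_iSupIndep (ξ : K →ₗ[ℂ] K)).comp Complex.ofReal_injective
    refine h1.mono fun c x hx => ?_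
    rw [Module.End.mem_eigenspace_iff]
    exact hx.2
  obtain ⟨L, hL⟩ := exists_lin_of (fun c : ℝ => eigR R₀ ξ c) hind T
  have hLs : ∀ (c : ℝ) x, (c : WithTop ℝ) ≤ w.v x → L (sym c x) = sym (c + d) (δ x) := by
    intro c x hx
    have h1 := hG.mem c x hx
    have h2 := hL c ⟨sym c x, h1⟩
    rw [show ((⟨sym c x, h1⟩ : eigR R₀ ξ c) : K) = sym c x from rfl] at h2
    rw [h2]
    exact hwd c _ _ (hρ c _) hx (hρ' c _)
  have hspan : ∀ x ∈ R₀, x ∈ Submodule.span ℂ {y | ∃ (c : ℝ) (x : R), (c : WithTop ℝ) ≤ w.v x ∧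
      y = sym c x} := by
    intro x hx
    have h1 := hC.span x hx
    refine Submodule.span_mono ?_ h1
    rintro y ⟨hy, c, _, he⟩
    obtain ⟨x, hx, hs⟩ := hG.surj c y hy he
    exact ⟨c, x, hx, hs.symm⟩
  obtain ⟨D, hD⟩ := Pool.Agent.Helper79.D4.exists_der_ext hC.frac L (by
    intro x hx y hy
    have hx' := hspan x hx
    have hy' := hspan y hy
    clear hx hy
    induction hx' using Submodule.span_induction with
    | mem x hx =>
      obtain ⟨b, x, hx, rfl⟩ := hx
      induction hy' using Submodule.span_induction with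
      | mem y hy =>
        obtain ⟨c, y, hy, rfl⟩ := hy
        have h1 := hG.mul b c x y hx hy
        have h2 : ((b + c : ℝ) : WithTop ℝ) ≤ w.v (x * y) := by
          rw [WithTop.coe_add, w.v.map_mul]
          exact add_le_add hx hy
        have h3 := hG.mul b (c + d) x (δ y) hx (hv c y hy)
        have h4 := hG.mul c (b + d) y (δ x) hy (hv b x hx)
        have e1 : b + (c + d) = b + c + d := by ring
        have e2 : c + (b + d) = b + c + d := by ring
        rw [e1] at h3
        rw [e2] at h4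
        have h5 : ((b + c + d : ℝ) : WithTop ℝ) ≤ w.v (x * δ y) := by
          rw [← e1, WithTop.coe_add, w.v.map_mul]
          exact add_le_add hx (hv c y hy)
        have h6 : ((b + c + d : ℝ) : WithTop ℝ) ≤ w.v (y * δ x) := by
          rw [← e2, WithTop.coe_add, w.v.map_mul]
          exact add_le_add hy (hv b x hx)
        rw [← h1, hLs _ _ h2, hLs _ _ hx, hLs _ _ hy, Derivation.leibniz, smul_eq_mul,
          smul_eq_mul, hG.add _ _ _ h5 h6, h3, h4]
      | zero => rw [mul_zero, map_zero, mul_zero, zero_mul, add_zero]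
      | add y y' _ _ hy hy' =>
        rw [mul_add, map_add, map_add, hy, hy']
        ring
      | smul a y _ hy =>
        rw [mul_smul_comm, map_smul, map_smul, hy, smul_add, mul_smul_comm, smul_mul_assoc]
    | zero => rw [zero_mul, map_zero, mul_zero, zero_mul, add_zero]
    | add x x' _ _ hx hx' =>
      rw [add_mul, map_add, map_add, hx, hx']
      ring
    | smul a x _ hx =>
      rw [smul_mul_assoc, map_smul, map_smul, hx, smul_add, mul_smul_comm, smul_mul_assoc])
  have hDs : ∀ (c : ℝ) x, (c : WithTop ℝ) ≤ w.v x → D (sym c x) = sym (c + d) (δ x) := by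
    intro c x hx
    rw [hD _ (hG.mem c x hx).1, hLs c x hx]
  refine ⟨D, fun x hx => ?_, hDs⟩
  have h1 := hspan x hx
  clear hx
  induction h1 using Submodule.span_induction with
  | mem x hx =>
    obtain ⟨c, x, hx, rfl⟩ := hx
    rw [hDs c x hx]
    exact (hG.mem (c + d) _ (hv c x hx)).1
  | zero => rw [map_zero]; exact R₀.zero_mem
  | add x y _ _ hx hy => rw [map_add]; exact R₀.add_mem hx hy
  | smul a x _ hx => rw [Derivation.map_smul]; exact R₀.smul_mem hx a

end Pool.Agent.Helper51.D4
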